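import Pool.Agent.helper65.GF.SpecG

/-!
# MP_ea335c_an, row YNW
-/

set_option autoImplicit false

namespace Pool.Agent.GD

open Finset Metric Filter Topology

theorem YNW_A (p n j : ℕ) (h2 : j ≤ p) (h3 : p < n) : 0 ≤ AH p n j := by
  unfold AH
  have h4 : (j : ℝ) ≤ n := by
    have : j ≤ n := by omega
    exact_mod_cast this
  apply div_nonneg
  · positivity
  · apply mul_nonneg
    · positivity
    · apply mul_nonneg
      · linarith
      · positivity

theorem YNW_B (p n j : ℕ) (h2 : j ≤ p) (h3 : p < n) : 0 ≤ BH p n j := by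
  unfold BH
  have h1 := YNW_A p n j h2 h3
  have h4 : 0 ≤ ∑ q ∈ Ioc j p, AH p n q := by
    refine Finset.sum_nonneg fun q hq => ?_
    rw [Finset.mem_Ioc] at hq
    exact YNW_A p n q hq.2 h3
  linarith

theorem YNW (h1 : YNU_stmt) (h2 : YNV_stmt) : YNW_stmt := by
  intro p n j g2 g3
  refine ⟨?_, YNW_A p n j g2 g3, YNW_B p n j g2 g3, ?_⟩
  all_goals
    have key : 0 ≤ (2 * (n : ℝ) + 1) * AH p n j - (2 * j + 1) * BH p n j ∧
        ((2 * (n : ℝ) + 1) * AH p n j - (2 * j + 1) * BH p n j) ^ 2 =
          4 * (2 * (j : ℝ) + 1) ^ 2 +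
            4 * ∑ m ∈ Ioo p n, ((2 * (m : ℝ) + 1) * AH p m j) * ((2 * j + 1) * BH p m j) := by
      induction n, (show p + 1 ≤ n from g3) using Nat.le_induction with
      | base =>
        have h4 := h2 p j g2
        have h5 : Ioo p (p + 1) = ∅ := by
          ext m
          simp only [Finset.mem_Ioo, Finset.notMem_empty, iff_false]
          omega
        rw [h5, Finset.sum_empty]
        have h6 : (2 * (((p + 1 : ℕ) : ℝ)) + 1) * AH p (p + 1) j - (2 * j + 1) * BH p (p + 1) j =
            2 * (2 * (j : ℝ) + 1) := by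
          push_cast
          linarith
        rw [h6]
        constructor
        · positivity
        · ring
      | succ n hn ih =>
        obtain ⟨i1, i2⟩ := ih (by omega)
        have h4 := h1 p n j g2 (by omega)
        have h5 : Ioo p (n + 1) = insert n (Ioo p n) := by
          ext m
          simp only [Finset.mem_Ioo, Finset.mem_insert]
          omega
        have h6 : (2 * (((n + 1 : ℕ) : ℝ)) + 1) * AH p (n + 1) j - (2 * j + 1) * BH p (n + 1) j =
            ((2 * (n : ℝ) + 1) * AH p n j - (2 * j + 1) * BH p n j) + 2 * ((2 * j + 1) * BH p n j) := by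
          push_cast
          linarith
        rw [h6, h5, Finset.sum_insert (by simp)]
        have h7 := YNW_B p n j g2 (by omega)
        constructor
        · have : 0 ≤ (2 * (j : ℝ) + 1) * BH p n j := by positivity
          linarith
        · have h8 : (((2 * (n : ℝ) + 1) * AH p n j - (2 * j + 1) * BH p n j) +
              2 * ((2 * j + 1) * BH p n j)) ^ 2 =
              ((2 * (n : ℝ) + 1) * AH p n j - (2 * j + 1) * BH p n j) ^ 2 +
                4 * (((2 * (n : ℝ) + 1) * AH p n j) * ((2 * j + 1) * BH p n j)) := by ring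
          rw [h8, i2]
          ring
  · exact key.1
  · exact key.2

end Pool.Agent.GD
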